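import Pool.Agent.Lib_helper53.MET.Base

set_option autoImplicit false

namespace Pool.Agent.MET

open scoped commutatorElement

/-! ### words in a group -/

section words

variable {H : Type*} [Group H] (val : ℕ → H)

/-- value of a word -/
def r6aW (w : Word) : H := (w.map (fun p => if p.2 then val p.1 else (val p.1)⁻¹)).prod

theorem r6aW_append (u v : Word) : r6aW val (u ++ v) = r6aW val u * r6aW val v := by
  simp [r6aW]

theorem r6aW_winv (w : Word) : r6aW val (winv w) = (r6aW val w)⁻¹ := by
  unfold r6aW winv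
  rw [List.prod_inv_reverse, List.map_reverse, List.map_map, List.map_map]
  congr 2
  refine List.map_congr_left fun p _ => ?_
  obtain ⟨j, e⟩ := p
  cases e <;> simp

theorem r6aW_cw (u v : Word) : r6aW val (cw u v) = ⁅r6aW val u, r6aW val v⁆ := by
  unfold cw
  rw [r6aW_append, r6aW_append, r6aW_append, r6aW_winv, r6aW_winv, commutatorElement_def]

theorem r6aW_single (i : ℕ) : r6aW val [(i, true)] = val i := by simp [r6aW]

theorem r6aW_sh (s : ℕ) (w : Word) : r6aW val (sh s w) = r6aW (fun i => val (s + i)) w := by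
  unfold r6aW sh
  rw [List.map_map]
  congr 1
  refine List.map_congr_left fun p _ => ?_
  simp [add_comm]

theorem r6aW_lift {n : ℕ} (F : Fin n → H) (w : Word) :
    FreeGroup.lift F (FreeGroup.lift
      (fun i : ℕ => if h : i < n then FreeGroup.of (⟨i, h⟩ : Fin n) else 1) (FreeGroup.mk w)) =
      r6aW (fun i => if h : i < n then F ⟨i, h⟩ else 1) w := by
  have h : (FreeGroup.lift F).comp (FreeGroup.lift
      (fun i : ℕ => if h : i < n then FreeGroup.of (⟨i, h⟩ : Fin n) else 1)) =
      FreeGroup.lift (fun i : ℕ => if h : i < n then F ⟨i, h⟩ else 1) := by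
    ext i
    by_cases h : i < n <;> simp [h]
  refine (DFunLike.congr_fun h _).trans ?_
  rw [FreeGroup.lift_mk]
  unfold r6aW
  congr 1
  refine List.map_congr_left fun p _ => ?_
  obtain ⟨j, e⟩ := p
  cases e <;> rfl

theorem r6a_met_iff {Γ : Type*} [Group Γ] :
    derivedSeries Γ 2 = ⊥ ↔ ∀ a b c d : Γ, ⁅⁅a, b⁆, ⁅c, d⁆⁆ = 1 := by
  have h2 : derivedSeries Γ 2 = ⁅commutator Γ, commutator Γ⁆ := by
    rw [show (2 : ℕ) = 1 + 1 from rfl, derivedSeries_succ, derivedSeries_one]
  rw [h2]
  constructor
  · intro h a b c d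
    have : ⁅⁅a, b⁆, ⁅c, d⁆⁆ ∈ ⁅commutator Γ, commutator Γ⁆ :=
      Subgroup.commutator_mem_commutator
        (Subgroup.commutator_mem_commutator (Subgroup.mem_top _) (Subgroup.mem_top _))
        (Subgroup.commutator_mem_commutator (Subgroup.mem_top _) (Subgroup.mem_top _))
    rw [h] at this
    exact Subgroup.mem_bot.1 this
  · intro h
    rw [eq_bot_iff, Subgroup.commutator_le]
    intro x hx y hy
    rw [commutator_eq_closure] at hx hy
    rw [Subgroup.mem_bot, commutatorElement_eq_one_iff_commute]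
    refine Subgroup.closure_induction₂ (p := fun x y _ _ => Commute x y) ?_ ?_ ?_ ?_ ?_ ?_ ?_ hx hy
    · rintro _ _ ⟨a, b, rfl⟩ ⟨c, d, rfl⟩
      exact commutatorElement_eq_one_iff_commute.1 (h a b c d)
    · intro x _; exact Commute.one_left x
    · intro x _; exact Commute.one_right x
    · intro x y z _ _ _ h1 h2; exact Commute.mul_left h1 h2
    · intro y z x _ _ _ h1 h2; exact Commute.mul_right h1 h2
    · intro x y _ _ h1; exact Commute.inv_left h1
    · intro x y _ _ h1; exact Commute.inv_right h1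

end words

/-! ### the split group satisfies the relations -/

section sd

variable (k b : ℕ) (R : List Rel)

/-- the split group -/
abbrev r6aG := SD k (PM k b R)

theorem r6a_acM (v : Multiplicative (Fin k → ℤ)) (m : PM k b R) :
    acM k (PM k b R) v (Multiplicative.ofAdd m) =
      Multiplicative.ofAdd ((xp (Multiplicative.toAdd v) : L k) • m) := rfl

theorem r6a_inl_comm (a c : Multiplicative (PM k b R)) :
    Commute (SemidirectProduct.inl a : r6aG k b R) (SemidirectProduct.inl c) := by
  unfold Commute SemiconjBy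
  rw [← map_mul, ← map_mul, mul_comm]

theorem r6a_right_one (x : r6aG k b R) (h : x.right = 1) :
    ∃ a, x = SemidirectProduct.inl a := by
  refine ⟨x.left, ?_⟩
  apply SemidirectProduct.ext
  · simp
  · simp [h]

theorem r6a_comm_right (x y : r6aG k b R) : (⁅x, y⁆ : r6aG k b R).right = 1 := by
  have h := map_commutatorElement (SemidirectProduct.rightHom : r6aG k b R →* _) x y
  change SemidirectProduct.rightHom ⁅x, y⁆ = 1
  rw [h, commutatorElement_eq_one_iff_commute]
  exact mul_comm _ _

theorem r6a_sd_met : derivedSeries (r6aG k b R) 2 = ⊥ := by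
  rw [r6a_met_iff]
  intro x y z t
  obtain ⟨a, ha⟩ := r6a_right_one k b R _ (r6a_comm_right k b R x y)
  obtain ⟨c, hc⟩ := r6a_right_one k b R _ (r6a_comm_right k b R z t)
  rw [ha, hc, commutatorElement_eq_one_iff_commute]
  exact r6a_inl_comm k b R a c

/-- values of the letters in the split group -/
noncomputable def r6aV (i : ℕ) : r6aG k b R :=
  if i < b then SemidirectProduct.inl (Multiplicative.ofAdd (gen i))
  else SemidirectProduct.inr (Multiplicative.ofAdd (mon k [(i - b, true)]))

theorem r6aV_lt {i : ℕ} (h : i < b) :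
    r6aV k b R i = SemidirectProduct.inl (Multiplicative.ofAdd (gen i)) := by
  simp [r6aV, h]

theorem r6aV_add (i : ℕ) :
    r6aV k b R (b + i) = SemidirectProduct.inr (Multiplicative.ofAdd (mon k [(i, true)])) := by
  simp [r6aV]

theorem r6a_mon_ge {j : ℕ} (e : Bool) (h : k ≤ j) : mon k [(j, e)] = 0 := by
  funext i
  have : j ≠ (i : ℕ) := by omega
  simp [mon, this]

theorem r6a_mon_ff (j : ℕ) : mon k [(j, false)] = - mon k [(j, true)] := by
  funext i
  by_cases h : j = (i : ℕ) <;> simp [mon, h]

theorem r6aV_word (w : Word) : r6aW (fun i => r6aV k b R (b + i)) w =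
    SemidirectProduct.inr (Multiplicative.ofAdd (mon k w)) := by
  induction w with
  | nil => simp [r6aW, mon_nil]
  | cons p w ih =>
    have h1 : r6aW (fun i => r6aV k b R (b + i)) (p :: w) =
      r6aW (fun i => r6aV k b R (b + i)) [p] * r6aW (fun i => r6aV k b R (b + i)) w :=
      r6aW_append _ [p] w
    rw [h1, ih, mon_cons k p w, ofAdd_add, map_mul]
    congr 1
    obtain ⟨j, e⟩ := p
    cases e
    · simp only [r6aW, List.map_cons, List.map_nil, List.prod_cons, List.prod_nil, mul_one,
        Bool.false_eq_true, if_false]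
      rw [r6aV_add, r6a_mon_ff, ofAdd_neg, map_inv]
    · rw [r6aW_single, r6aV_add]

theorem r6a_conj (v : Fin k → ℤ) (m : PM k b R) :
    (SemidirectProduct.inr (Multiplicative.ofAdd v) *
      SemidirectProduct.inl (Multiplicative.ofAdd m) *
      (SemidirectProduct.inr (Multiplicative.ofAdd v))⁻¹ : r6aG k b R) =
    SemidirectProduct.inl (Multiplicative.ofAdd ((xp v : L k) • m)) := by
  rw [← map_inv, ← SemidirectProduct.inl_aut, r6a_acM, toAdd_ofAdd]

theorem r6a_rels (w : Word) (hw : w ∈ (grp (k, b, R)).2) : r6aW (r6aV k b R) w = 1 := by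
  unfold grp at hw
  simp only [List.mem_append, List.mem_map, List.mem_flatMap, List.mem_range] at hw
  rcases hw with ((⟨i, hi, j, hj, rfl⟩ | ⟨i, hi, j, hj, rfl⟩) | ⟨i, hi, j, hj, l, hl, rfl⟩) |
    ⟨r, hr, rfl⟩
  · rw [r6aW_cw, r6aW_single, r6aW_single, r6aV_add, r6aV_add,
      commutatorElement_eq_one_iff_commute]
    exact (Commute.all _ _).map SemidirectProduct.inr
  · rw [r6aW_cw, r6aW_single, r6aW_single, r6aV_lt k b R hi, r6aV_lt k b R hj,
      commutatorElement_eq_one_iff_commute]
    exact r6a_inl_comm k b R _ _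
  · rw [r6aW_cw, r6aW_cw, r6aW_single, r6aW_single, r6aW_single, r6aV_lt k b R hi]
    obtain ⟨a, ha⟩ := r6a_right_one k b R _ (r6a_comm_right k b R (r6aV k b R j)
      (r6aV k b R (b + l)))
    rw [ha, commutatorElement_eq_one_iff_commute]
    exact r6a_inl_comm k b R _ _
  · have h1 : ∀ r : Rel, r6aW (r6aV k b R) (r.flatMap
      (fun t => if t.1 < b then sh b t.2.2 ++ (t.1, t.2.1) :: winv (sh b t.2.2) else [])) =
      SemidirectProduct.inl (Multiplicative.ofAdd ((r.map (fun t => sg t.2.1 •
        ((xp (mon k t.2.2) : L k) • (gen t.1 : PM k b R)))).sum)) := by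
      intro r
      induction r with
      | nil => simp [r6aW]
      | cons t r ih =>
        rw [List.flatMap_cons, r6aW_append, ih, List.map_cons, List.sum_cons, ofAdd_add, map_mul]
        congr 1
        obtain ⟨i, e, w⟩ := t
        by_cases h : i < b
        · simp only [h, if_true]
          have h2 : (sh b w ++ (i, e) :: winv (sh b w) : Word) =
            sh b w ++ ([(i, e)] ++ winv (sh b w)) := rfl
          rw [h2, r6aW_append, r6aW_append, r6aW_winv, r6aW_sh, r6aV_word]
          have h3 : r6aW (r6aV k b R) [(i, e)] =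
              SemidirectProduct.inl (Multiplicative.ofAdd (sg e • gen i)) := by
            cases e
            · simp [r6aW, sg, r6aV_lt k b R h]
            · simp [r6aW, sg, r6aV_lt k b R h]
          rw [h3, ← mul_assoc, r6a_conj, smul_comm]
        · simp only [h, if_false]
          rw [gen_of_le (not_lt.1 h)]
          simp [r6aW]
    refine (h1 r).trans ?_
    rw [pm_rel r hr]
    simp

end sd

/-! ### commuting conjugates -/

theorem r6a_comm_conj {G : Type*} [Group G] (hG : ∀ a b c d : G, ⁅⁅a, b⁆, ⁅c, d⁆⁆ = 1) (b k : ℕ)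
    (e x : ℕ → G)
    (hgen : Subgroup.closure ({z | ∃ i, i < b ∧ z = e i} ∪ {z | ∃ j, j < k ∧ z = x j}) = ⊤)
    (hee : ∀ i < b, ∀ j < b, ⁅e i, e j⁆ = 1) (hex : ∀ i < b, ∀ j < b, ∀ l < k, ⁅e i, ⁅e j, x l⁆⁆ = 1)
    (g : G) (i : ℕ) (hi : i < b) (j : ℕ) (hj : j < b) : Commute (e i) (g * e j * g⁻¹) := by
  have hD : ∀ x ∈ commutator G, ∀ y ∈ commutator G, Commute x y := by
    intro x hx y hy
    rw [commutator_eq_closure] at hx hy
    refine Subgroup.closure_induction₂ (p := fun x y _ _ => Commute x y) ?_ ?_ ?_ ?_ ?_ ?_ ?_ hx hy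
    · rintro _ _ ⟨a, b, rfl⟩ ⟨c, d, rfl⟩
      exact commutatorElement_eq_one_iff_commute.1 (hG a b c d)
    · intro x _; exact Commute.one_left x
    · intro x _; exact Commute.one_right x
    · intro x y z _ _ _ h1 h2; exact Commute.mul_left h1 h2
    · intro y z x _ _ _ h1 h2; exact Commute.mul_right h1 h2
    · intro x y _ _ h1; exact Commute.inv_left h1
    · intro x y _ _ h1; exact Commute.inv_right h1
  have hmem : ∀ a c : G, ⁅a, c⁆ ∈ commutator G := fun a c =>
    Subgroup.commutator_mem_commutator (Subgroup.mem_top a) (Subgroup.mem_top c)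
  let Z : Subgroup G :=
    { carrier := {z | z ∈ commutator G ∧ ∀ i < b, Commute (e i) z}
      mul_mem' := fun {u v} hu hv =>
        ⟨(commutator G).mul_mem hu.1 hv.1, fun i hi => (hu.2 i hi).mul_right (hv.2 i hi)⟩
      one_mem' := ⟨(commutator G).one_mem, fun i _ => Commute.one_right _⟩
      inv_mem' := fun {u} hu => ⟨(commutator G).inv_mem hu.1, fun i hi => (hu.2 i hi).inv_right⟩ }
  have hZn : ∀ z ∈ Z, ∀ g : G, g * z * g⁻¹ ∈ Z := by
    rintro z ⟨hz1, hz2⟩ g
    refine ⟨(inferInstance : (commutator G).Normal).conj_mem z hz1 g, fun i hi => ?_⟩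
    have h1 : Commute ⁅(e i)⁻¹, g⁻¹⁆ z := hD _ (hmem _ _) _ hz1
    have h2 := hz2 i hi
    have h3 : e i * g = g * e i * ⁅(e i)⁻¹, g⁻¹⁆ := by
      rw [commutatorElement_def]; group
    unfold Commute SemiconjBy at *
    calc e i * (g * z * g⁻¹) = (e i * g) * z * g⁻¹ := by group
      _ = g * e i * (⁅(e i)⁻¹, g⁻¹⁆ * z) * g⁻¹ := by rw [h3]; group
      _ = g * e i * (z * ⁅(e i)⁻¹, g⁻¹⁆) * g⁻¹ := by rw [h1]
      _ = g * (e i * z) * ⁅(e i)⁻¹, g⁻¹⁆ * g⁻¹ := by group
      _ = g * (z * e i) * ⁅(e i)⁻¹, g⁻¹⁆ * g⁻¹ := by rw [h2]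
      _ = g * z * g⁻¹ * (g * e i * ⁅(e i)⁻¹, g⁻¹⁆) * g⁻¹ := by group
      _ = g * z * g⁻¹ * (e i * g) * g⁻¹ := by rw [← h3]
      _ = g * z * g⁻¹ * e i := by group
  have key : ∀ h : G, ∀ j < b, ⁅e j, h⁆ ∈ Z := by
    intro h
    have hh : h ∈ Subgroup.closure ({z | ∃ i, i < b ∧ z = e i} ∪ {z | ∃ j, j < k ∧ z = x j}) := by
      rw [hgen]; trivial
    induction hh using Subgroup.closure_induction with
    | mem z hz =>
      intro j hj
      rcases hz with ⟨l, hl, rfl⟩ | ⟨l, hl, rfl⟩
      · rw [hee j hj l hl]; exact Z.one_mem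
      · exact ⟨hmem _ _, fun i hi => commutatorElement_eq_one_iff_commute.1 (hex i hi j hj l hl)⟩
    | one => intro j _; rw [commutatorElement_one_right]; exact Z.one_mem
    | mul u v _ _ hu hv =>
      intro j hj
      have : ⁅e j, u * v⁆ = ⁅e j, u⁆ * (u * ⁅e j, v⁆ * u⁻¹) := by
        simp only [commutatorElement_def]; group
      rw [this]
      exact Z.mul_mem (hu j hj) (hZn _ (hv j hj) u)
    | inv u _ hu =>
      intro j hj
      have : ⁅e j, u⁻¹⁆ = (u⁻¹ * ⁅e j, u⁆ * u⁻¹⁻¹)⁻¹ := by
        simp only [commutatorElement_def]; group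
      rw [this]
      exact Z.inv_mem (hZn _ (hu j hj) _)
  have h4 : g * e j * g⁻¹ = ⁅e j, g⁆⁻¹ * e j := by
    rw [commutatorElement_def]; group
  rw [h4]
  exact ((key g j hj).2 i hi).inv_right.mul_right
    (commutatorElement_eq_one_iff_commute.1 (hee i hi j hj))

/-! ### the inverse map -/

theorem r6a_word_surj {k : ℕ} (v : Fin k → ℤ) : ∃ w : Word, mon k w = v := by
  classical
  let H : AddSubgroup (Fin k → ℤ) :=
    { carrier := {v | ∃ w : Word, mon k w = v}
      zero_mem' := ⟨[], mon_nil k⟩
      add_mem' := by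
        rintro _ _ ⟨w, rfl⟩ ⟨w', rfl⟩
        exact ⟨w ++ w', mon_append k w w'⟩
      neg_mem' := by
        rintro _ ⟨w, rfl⟩
        refine ⟨w.map (fun p => (p.1, !p.2)), ?_⟩
        induction w with
        | nil => simp [mon_nil]
        | cons p w ih =>
          rw [List.map_cons, mon_cons, ih, mon_cons k p w, neg_add]
          congr 1
          funext i
          obtain ⟨j, e⟩ := p
          by_cases h : j = (i : ℕ) <;> cases e <;> simp [mon, h] }
  have hs : ∀ j : Fin k, Pi.single j (1 : ℤ) ∈ H := by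
    intro j
    refine ⟨[((j : ℕ), true)], ?_⟩
    funext i
    by_cases h : j = i
    · subst h; simp [mon]
    · have h' : (j : ℕ) ≠ (i : ℕ) := fun e => h (Fin.ext e)
      simp [mon, h', Pi.single_apply, Ne.symm h]
  have hv : v = ∑ j : Fin k, v j • Pi.single j (1 : ℤ) := by
    funext i
    simp [Finset.sum_apply, Pi.single_apply]
  have : v ∈ H := by
    rw [hv]
    exact H.sum_mem fun j _ => H.zsmul_mem (hs j) _
  exact this

/-- commuting elements give a homomorphism from `ℤ^k` -/
theorem r6a_hx {G : Type*} [Group G] (k : ℕ) (x : ℕ → G) (hx : ∀ i < k, ∀ j < k, Commute (x i) (x j))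
    (h1 : ∀ i, k ≤ i → x i = 1) :
    ∃ f : Multiplicative (Fin k → ℤ) →* G, ∀ w : Word, f (Multiplicative.ofAdd (mon k w)) = r6aW x w := by
  classical
  let f0 : (Fin k → Multiplicative ℤ) →* G :=
    MonoidHom.noncommPiCoprod (fun i : Fin k => zpowersHom G (x i)) (by
      intro i j _ a c
      simp only [zpowersHom_apply]
      exact ((hx i i.2 j j.2).zpow_zpow _ _))
  let f : Multiplicative (Fin k → ℤ) →* G := f0.comp
    { toFun := fun v i => Multiplicative.ofAdd (Multiplicative.toAdd v i)
      map_one' := rfl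
      map_mul' := fun _ _ => rfl }
  have hlet : ∀ (j : ℕ) (e : Bool), f (Multiplicative.ofAdd (mon k [(j, e)])) =
      if e then x j else (x j)⁻¹ := by
    intro j e
    by_cases hj : j < k
    · have h2 : (fun i : Fin k => Multiplicative.ofAdd
          (Multiplicative.toAdd (Multiplicative.ofAdd (mon k [(j, e)])) i)) =
          Pi.mulSingle (⟨j, hj⟩ : Fin k) (Multiplicative.ofAdd (if e then (1 : ℤ) else -1)) := by
        funext i
        by_cases hi : i = (⟨j, hj⟩ : Fin k)
        · subst hi; simp [mon]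
        · have : j ≠ (i : ℕ) := fun e => hi (Fin.ext e.symm)
          simp [mon, this, Pi.mulSingle_eq_of_ne hi]
      change f0 (fun i : Fin k => Multiplicative.ofAdd
          (Multiplicative.toAdd (Multiplicative.ofAdd (mon k [(j, e)])) i)) = _
      rw [h2, MonoidHom.noncommPiCoprod_mulSingle]
      cases e <;> simp
    · rw [r6a_mon_ge k e (not_lt.1 hj), ofAdd_zero, map_one, h1 j (not_lt.1 hj)]
      cases e <;> simp
  refine ⟨f, fun w => ?_⟩
  induction w with
  | nil => rw [mon_nil, ofAdd_zero, map_one]; rfl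
  | cons p w ih =>
    have h3 : r6aW x (p :: w) = r6aW x [p] * r6aW x w := r6aW_append x [p] w
    rw [h3, ← ih, mon_cons k p w, ofAdd_add, map_mul]
    congr 1
    obtain ⟨j, e⟩ := p
    rw [hlet]
    simp [r6aW]

theorem r6a_inv (k b : ℕ) (R : List Rel) {G : Type} [Group G] (val : ℕ → G)
    (hrel : ∀ w ∈ (grp (k, b, R)).2, r6aW val w = 1) (h1 : ∀ i, b + k ≤ i → val i = 1)
    {N : Type} [CommGroup N] (ι : N →* G) (hι : Function.Injective ι) (E : ℕ → N)
    (hE : ∀ i < b, ι (E i) = val i) (act : G → N →* N)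
    (hact : ∀ g n, ι (act g n) = g * ι n * g⁻¹) :
    ∃ f : SD k (PM k b R) →* G,
      (∀ i < b, f (SemidirectProduct.inl (Multiplicative.ofAdd (gen i))) = val i) ∧
      ∀ w : Word, f (SemidirectProduct.inr (Multiplicative.ofAdd (mon k w))) =
        r6aW (fun i => val (b + i)) w := by
  have hxx : ∀ i < k, ∀ j < k, Commute (val (b + i)) (val (b + j)) := by
    intro i hi j hj
    have := hrel (cw [(b + i, true)] [(b + j, true)]) (by
      unfold grp
      simp only [List.mem_append, List.mem_map, List.mem_flatMap, List.mem_range]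
      exact Or.inl (Or.inl (Or.inl ⟨i, hi, j, hj, rfl⟩)))
    rw [r6aW_cw, r6aW_single, r6aW_single, commutatorElement_eq_one_iff_commute] at this
    exact this
  obtain ⟨hx, hhx⟩ := r6a_hx k (fun i => val (b + i)) hxx (fun i hi => h1 _ (by omega))
  have a1 : ∀ n, act 1 n = n := fun n => hι (by rw [hact]; simp)
  have am : ∀ g h n, act (g * h) n = act g (act h n) := fun g h n => hι (by
    rw [hact, hact, hact]; group)
  obtain ⟨f2, hf2g, hf2⟩ := up (k := k) (b := b) (R := R) (B := Additive N)
    (fun v => (act (hx (Multiplicative.ofAdd v))).toAdditive)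
    (fun x => by
      change Additive.ofMul (act (hx (Multiplicative.ofAdd 0)) (Additive.toMul x)) = x
      rw [ofAdd_zero, map_one, a1]; rfl)
    (fun v w x => by
      change Additive.ofMul (act (hx (Multiplicative.ofAdd (v + w))) (Additive.toMul x)) =
        Additive.ofMul (act (hx (Multiplicative.ofAdd v)) (act (hx (Multiplicative.ofAdd w))
          (Additive.toMul x)))
      rw [ofAdd_add, map_mul, am])
    (fun i => Additive.ofMul (E i)) (by
      intro r hr
      have h2 := hrel (r.flatMap
        (fun t => if t.1 < b then sh b t.2.2 ++ (t.1, t.2.1) :: winv (sh b t.2.2) else [])) (by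
        unfold grp
        simp only [List.mem_append, List.mem_map]
        exact Or.inr ⟨r, hr, rfl⟩)
      have h3 : ∀ r : Rel, ι (Additive.toMul (ev (fun v : Fin k → ℤ =>
          ((act (hx (Multiplicative.ofAdd v))).toAdditive : Additive N →+ Additive N)) b
          (fun i => Additive.ofMul (E i)) r)) = r6aW val (r.flatMap
        (fun t => if t.1 < b then sh b t.2.2 ++ (t.1, t.2.1) :: winv (sh b t.2.2) else [])) := by
        intro r
        induction r with
        | nil => simp [ev, r6aW]
        | cons t r ih =>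
          rw [List.flatMap_cons, r6aW_append, ← ih]
          unfold ev
          rw [List.map_cons, List.sum_cons, toMul_add, map_mul]
          congr 1
          obtain ⟨i, e, w⟩ := t
          by_cases h : i < b
          · simp only [h, if_true]
            have h2 : (sh b w ++ (i, e) :: winv (sh b w) : Word) =
              sh b w ++ ([(i, e)] ++ winv (sh b w)) := rfl
            rw [h2, r6aW_append, r6aW_append, r6aW_winv, r6aW_sh]
            change ι (Additive.toMul (sg e • Additive.ofMul
              (act (hx (Multiplicative.ofAdd (mon k w))) (E i)))) = _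
            rw [hhx, toMul_zsmul, toMul_ofMul, map_zpow, hact, hE i h]
            cases e
            · simp [r6aW, sg, mul_assoc]
            · simp [r6aW, sg, mul_assoc]
          · simp only [h, if_false]
            simp [r6aW]
      have h4 : ι (Additive.toMul (ev (fun v : Fin k → ℤ =>
          ((act (hx (Multiplicative.ofAdd v))).toAdditive : Additive N →+ Additive N)) b
          (fun i => Additive.ofMul (E i)) r)) = 1 := (h3 r).trans h2
      have h5 := hι (h4.trans (map_one ι).symm)
      exact h5)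
  let φ1 : Multiplicative (PM k b R) →* G :=
    { toFun := fun m => ι (Additive.toMul (f2 (Multiplicative.toAdd m)))
      map_one' := by simp
      map_mul' := fun m n => by simp }
  refine ⟨SemidirectProduct.lift φ1 hx ?_, ?_, ?_⟩
  · intro v
    ext m
    change ι (Additive.toMul (f2 ((xp (Multiplicative.toAdd v) : L k) • Multiplicative.toAdd m))) =
      hx v * ι (Additive.toMul (f2 (Multiplicative.toAdd m))) * (hx v)⁻¹
    rw [hf2]
    exact hact (hx v) _
  · intro i hi
    rw [SemidirectProduct.lift_inl]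
    change ι (Additive.toMul (f2 (gen i))) = _
    rw [hf2g i hi]
    exact hE i hi
  · intro w
    rw [SemidirectProduct.lift_inr, hhx]

/-! ### the presented group -/

section pres

variable (k b : ℕ) (R : List Rel)

theorem r6a_mg_met (c : GCode) : derivedSeries (MG c) 2 = ⊥ := by
  rw [← map_derivedSeries_eq (f := PresentedGroup.mk _) (PresentedGroup.mk_surjective _) 2]
  rw [eq_bot_iff]
  rintro _ ⟨x, hx, rfl⟩
  rw [Subgroup.mem_bot]
  exact PresentedGroup.mk_eq_one_iff.2 (Subgroup.subset_normalClosure (Or.inr hx))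

/-- classes of the letters -/
def r6aU (i : ℕ) : MG (grp (k, b, R)) :=
  if h : i < b + k then PresentedGroup.of (⟨i, h⟩ : Fin (grp (k, b, R)).1) else 1

theorem r6aU_rel (w : Word) (hw : w ∈ (grp (k, b, R)).2) : r6aW (r6aU k b R) w = 1 := by
  have h1 := r6aW_lift (n := (grp (k, b, R)).1)
    (fun i => (PresentedGroup.of i : MG (grp (k, b, R)))) w
  refine Eq.trans ?_ (h1.symm.trans ?_)
  · rfl
  · have h2 : FreeGroup.lift (fun i => (PresentedGroup.of i : MG (grp (k, b, R)))) =
        PresentedGroup.mk _ := by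
      ext i; rfl
    rw [h2]
    exact PresentedGroup.mk_eq_one_iff.2 (Subgroup.subset_normalClosure (Or.inl ⟨w, hw, rfl⟩))

theorem r6aU_closure : Subgroup.closure ({z | ∃ i, i < b ∧ z = r6aU k b R i} ∪
    {z | ∃ j, j < k ∧ z = r6aU k b R (b + j)}) = ⊤ := by
  rw [eq_top_iff, ← PresentedGroup.closure_range_of]
  apply Subgroup.closure_mono
  rintro _ ⟨⟨i, hi⟩, rfl⟩
  have hi' : i < b + k := hi
  have h1 : (PresentedGroup.of (⟨i, hi⟩ : Fin (grp (k, b, R)).1) : MG (grp (k, b, R))) =
      r6aU k b R i := by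
    simp [r6aU, hi']
  rw [h1]
  by_cases h : i < b
  · exact Or.inl ⟨i, h, rfl⟩
  · refine Or.inr ⟨i - b, by omega, ?_⟩
    congr 1
    omega

theorem r6aU_comm (g h : MG (grp (k, b, R))) (i : ℕ) (hi : i < b) (j : ℕ) (hj : j < b) :
    (g * r6aU k b R i * g⁻¹) * (h * r6aU k b R j * h⁻¹) =
      (h * r6aU k b R j * h⁻¹) * (g * r6aU k b R i * g⁻¹) := by
  have hmet := r6a_met_iff.1 (r6a_mg_met (grp (k, b, R)))
  have hee : ∀ i < b, ∀ j < b, ⁅r6aU k b R i, r6aU k b R j⁆ = 1 := by
    intro i hi j hj
    have := r6aU_rel k b R (cw [(i, true)] [(j, true)]) (by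
      unfold grp
      simp only [List.mem_append, List.mem_map, List.mem_flatMap, List.mem_range]
      exact Or.inl (Or.inl (Or.inr ⟨i, hi, j, hj, rfl⟩)))
    rwa [r6aW_cw, r6aW_single, r6aW_single] at this
  have hex : ∀ i < b, ∀ j < b, ∀ l < k,
      ⁅r6aU k b R i, ⁅r6aU k b R j, r6aU k b R (b + l)⁆⁆ = 1 := by
    intro i hi j hj l hl
    have := r6aU_rel k b R (cw [(i, true)] (cw [(j, true)] [(b + l, true)])) (by
      unfold grp
      simp only [List.mem_append, List.mem_map, List.mem_flatMap, List.mem_range]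
      exact Or.inl (Or.inr ⟨i, hi, j, hj, l, hl, rfl⟩))
    rwa [r6aW_cw, r6aW_cw, r6aW_single, r6aW_single, r6aW_single] at this
  have h1 := r6a_comm_conj hmet b k (r6aU k b R) (fun j => r6aU k b R (b + j))
    (r6aU_closure k b R) hee hex (g⁻¹ * h) i hi j hj
  unfold Commute SemiconjBy at h1
  have h2 := congrArg (fun z => g * z * g⁻¹) h1
  simp only [mul_inv_rev, inv_inv] at h2
  calc (g * r6aU k b R i * g⁻¹) * (h * r6aU k b R j * h⁻¹)
      = g * (r6aU k b R i * (g⁻¹ * h * r6aU k b R j * (h⁻¹ * g))) * g⁻¹ := by group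
    _ = g * (g⁻¹ * h * r6aU k b R j * (h⁻¹ * g) * r6aU k b R i) * g⁻¹ := h2
    _ = _ := by group

end pres

/-- R6a: the presentation gives the split group -/
theorem r6a (c : MCode) : Nonempty (MG (grp c) ≃* SD c.1 (PM c.1 c.2.1 c.2.2)) := by
  obtain ⟨k, b, R⟩ := c
  change Nonempty (MG (grp (k, b, R)) ≃* SD k (PM k b R))
  set S : Set (MG (grp (k, b, R))) := {z | ∃ (g : MG (grp (k, b, R))) (i : ℕ), i < b ∧
    z = g * r6aU k b R i * g⁻¹} with hS
  have hcomm : ∀ x ∈ S, ∀ y ∈ S, x * y = y * x := by
    rintro _ ⟨g, i, hi, rfl⟩ _ ⟨h, j, hj, rfl⟩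
    exact r6aU_comm k b R g h i hi j hj
  have hconj : ∀ g : MG (grp (k, b, R)), ∀ n ∈ Subgroup.closure S,
      g * n * g⁻¹ ∈ Subgroup.closure S := by
    intro g n hn
    induction hn using Subgroup.closure_induction with
    | mem z hz =>
      obtain ⟨h, i, hi, rfl⟩ := hz
      exact Subgroup.subset_closure ⟨g * h, i, hi, by group⟩
    | one => simp
    | mul u v _ _ hu hv =>
      have : g * (u * v) * g⁻¹ = (g * u * g⁻¹) * (g * v * g⁻¹) := by group
      rw [this]; exact Subgroup.mul_mem _ hu hv
    | inv u _ hu =>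
      have : g * u⁻¹ * g⁻¹ = (g * u * g⁻¹)⁻¹ := by group
      rw [this]; exact Subgroup.inv_mem _ hu
  letI : CommGroup (Subgroup.closure S) := Subgroup.closureCommGroupOfComm hcomm
  obtain ⟨f, hf1, hf2⟩ := r6a_inv k b R (r6aU k b R) (r6aU_rel k b R)
    (fun i hi => by simp [r6aU, not_lt.2 hi]) (N := Subgroup.closure S)
    (Subgroup.closure S).subtype (Subgroup.subtype_injective _)
    (fun i => if h : i < b then ⟨r6aU k b R i, Subgroup.subset_closure ⟨1, i, h, by simp⟩⟩ else 1)
    (fun i hi => by simp [hi])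
    (fun g => { toFun := fun n => ⟨g * n * g⁻¹, hconj g n n.2⟩
                map_one' := Subtype.ext (by simp)
                map_mul' := fun m n => Subtype.ext (by
                  change g * ((m : MG (grp (k, b, R))) * n) * g⁻¹ =
                    (g * (m : MG (grp (k, b, R))) * g⁻¹) * (g * n * g⁻¹)
                  group) })
    (fun g n => rfl)
  have hF : ∀ r ∈ ({r : FreeGroup (Fin (grp (k, b, R)).1) | ∃ w ∈ (grp (k, b, R)).2,
        r = FreeGroup.lift
          (fun i : ℕ => if h : i < (grp (k, b, R)).1 then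
            FreeGroup.of (⟨i, h⟩ : Fin (grp (k, b, R)).1) else 1)
          (FreeGroup.mk w)} ∪
      (derivedSeries (FreeGroup (Fin (grp (k, b, R)).1)) 2 :
        Set (FreeGroup (Fin (grp (k, b, R)).1)))),
      FreeGroup.lift (fun i : Fin (grp (k, b, R)).1 => r6aV k b R i) r = 1 := by
    rintro r (⟨w, hw, rfl⟩ | hr)
    · rw [r6aW_lift]
      refine Eq.trans ?_ (r6a_rels k b R w hw)
      congr 1
      funext i
      by_cases h : i < (grp (k, b, R)).1
      · simp only [h, dite_true]
      · simp only [h, dite_false]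
        have h2 : ¬ i < b + k := h
        have h3 : ¬ i < b := by omega
        unfold r6aV
        rw [if_neg h3, r6a_mon_ge k true (by omega)]
        rfl
    · have h := map_derivedSeries_le_derivedSeries
        (FreeGroup.lift (fun i : Fin (grp (k, b, R)).1 => r6aV k b R i)) 2
        (Subgroup.mem_map_of_mem _ hr)
      rw [r6a_sd_met] at h
      exact Subgroup.mem_bot.1 h
  let F : MG (grp (k, b, R)) →* SD k (PM k b R) := PresentedGroup.toGroup hF
  have hFU : ∀ i, F (r6aU k b R i) = r6aV k b R i := by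
    intro i
    by_cases h : i < b + k
    · have h1 : r6aU k b R i = PresentedGroup.of (⟨i, h⟩ : Fin (grp (k, b, R)).1) := by
        simp [r6aU, h]
      rw [h1]
      exact PresentedGroup.toGroup.of _
    · have h1 : r6aU k b R i = 1 := by simp [r6aU, h]
      have h3 : ¬ i < b := by omega
      rw [h1, map_one]
      unfold r6aV
      rw [if_neg h3, r6a_mon_ge k true (by omega)]
      rfl
  have hFW : ∀ (val : ℕ → ℕ) (w : Word), F (r6aW (fun i => r6aU k b R (val i)) w) =
      r6aW (fun i => r6aV k b R (val i)) w := by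
    intro val w
    unfold r6aW
    rw [map_list_prod, List.map_map]
    congr 1
    refine List.map_congr_left fun p _ => ?_
    obtain ⟨j, e⟩ := p
    cases e
    · simp [hFU]
    · simp [hFU]
  refine ⟨MonoidHom.toMulEquiv F f ?_ ?_⟩
  · apply PresentedGroup.ext
    rintro ⟨i, hi⟩
    have hi' : i < b + k := hi
    have h1 : (PresentedGroup.of (⟨i, hi⟩ : Fin (grp (k, b, R)).1) : MG (grp (k, b, R))) =
        r6aU k b R i := by
      simp [r6aU, hi']
    rw [h1]
    change f (F (r6aU k b R i)) = r6aU k b R i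
    rw [hFU]
    by_cases h : i < b
    · rw [r6aV_lt k b R h, hf1 i h]
    · obtain ⟨j, rfl⟩ : ∃ j, i = b + j := ⟨i - b, by omega⟩
      rw [r6aV_add, hf2]
      simp [r6aW]
  · apply SemidirectProduct.hom_ext
    · apply MonoidHom.ext
      intro m
      change F (f (SemidirectProduct.inl m)) = SemidirectProduct.inl m
      refine pm_induction (motive := fun m => F (f (SemidirectProduct.inl
        (Multiplicative.ofAdd m))) = SemidirectProduct.inl (Multiplicative.ofAdd m))
        (Multiplicative.toAdd m) ?_ ?_ ?_ ?_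
      · simp
      · intro a c ha hc
        rw [ofAdd_add, map_mul, map_mul, map_mul, ha, hc]
      · intro a ha
        rw [ofAdd_neg, map_inv, map_inv, map_inv, ha]
      · intro v i hi
        obtain ⟨w, rfl⟩ := r6a_word_surj v
        rw [← r6a_conj, map_mul, map_mul, map_mul, map_mul, map_inv, map_inv, hf2, hf1 i hi,
          hFW (fun i => b + i), hFU, r6aV_word, r6aV_lt k b R hi]
    · apply MonoidHom.ext
      intro v
      change F (f (SemidirectProduct.inr v)) = SemidirectProduct.inr v
      obtain ⟨w, hw⟩ := r6a_word_surj (Multiplicative.toAdd v)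
      have hv : v = Multiplicative.ofAdd (mon k w) := by rw [hw]; rfl
      rw [hv, hf2, hFW (fun i => b + i), r6aV_word]

end Pool.Agent.MET
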