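import Pool.Agent.Lib_helper53.MET.Defs2

set_option autoImplicit false

namespace Pool.Agent.MET

/-! ### the trivial square-zero extension -/

section theta

variable (k b : ℕ) (M : Type) [AddCommGroup M] [Module (L k) M] [Module (L k)ᵐᵒᵖ M]
  [IsCentralScalar (L k) M] (g : ℕ → M)

/-- images of the variables in the trivial extension -/
noncomputable def r7aVal (i : ℕ) : TrivSqZeroExt (L k) M :=
  if i < b then TrivSqZeroExt.inr (g i)
  else TrivSqZeroExt.inl (xp (mon k [((i - b) / 2, decide ((i - b) % 2 = 0))]))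

theorem r7aVal_lt {i : ℕ} (h : i < b) : r7aVal k b M g i = TrivSqZeroExt.inr (g i) := by
  simp [r7aVal, h]

theorem r7aVal_tt (j : ℕ) :
    r7aVal k b M g (b + 2 * j) = TrivSqZeroExt.inl (xp (mon k [(j, true)])) := by
  have h1 : ¬ b + 2 * j < b := by omega
  have h2 : (b + 2 * j - b) / 2 = j := by omega
  have h3 : (b + 2 * j - b) % 2 = 0 := by omega
  unfold r7aVal
  rw [if_neg h1, h2, h3]
  rfl

theorem r7aVal_ff (j : ℕ) :
    r7aVal k b M g (b + 2 * j + 1) = TrivSqZeroExt.inl (xp (mon k [(j, false)])) := by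
  have h1 : ¬ b + 2 * j + 1 < b := by omega
  have h2 : (b + 2 * j + 1 - b) / 2 = j := by omega
  have h3 : (b + 2 * j + 1 - b) % 2 = 1 := by omega
  unfold r7aVal
  rw [if_neg h1, h2, h3]
  rfl

theorem r7a_mon_ge {j : ℕ} (e : Bool) (h : k ≤ j) : mon k [(j, e)] = 0 := by
  funext i
  have : j ≠ (i : ℕ) := by omega
  simp [mon, this]

theorem r7aVal_ge {i : ℕ} (h : b + 2 * k ≤ i) : r7aVal k b M g i = 1 := by
  have h1 : ¬ i < b := by omega
  have h2 : k ≤ (i - b) / 2 := by omega
  unfold r7aVal
  rw [if_neg h1, r7a_mon_ge k _ h2, xp_zero]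
  rfl

/-- evaluation in the trivial extension -/
noncomputable def r7aT0 : MvPolynomial (Fin (b + 2 * k)) ℤ →+* TrivSqZeroExt (L k) M :=
  MvPolynomial.eval₂Hom (Int.castRingHom _) (fun i => r7aVal k b M g i)

theorem r7aT0_mo (l : List ℕ) : r7aT0 k b M g (mo (b + 2 * k) l) = (l.map (r7aVal k b M g)).prod := by
  unfold mo
  rw [map_list_prod, List.map_map]
  congr 1
  refine List.map_congr_left fun i _ => ?_
  by_cases h : i < b + 2 * k
  · simp [h, r7aT0]
  · simp only [Function.comp_apply, h, dite_false, map_one]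
    exact (r7aVal_ge k b M g (not_lt.1 h)).symm

theorem r7a_letters (w : Word) :
    ((w.map (fun p => if p.2 then b + 2 * p.1 else b + 2 * p.1 + 1)).map (r7aVal k b M g)).prod =
      TrivSqZeroExt.inl (xp (mon k w)) := by
  induction w with
  | nil => simp [mon_nil, xp_zero]
  | cons p w ih =>
    rw [List.map_cons, List.map_cons, List.prod_cons, ih, mon_cons, xp_add]
    obtain ⟨j, e⟩ := p
    cases e
    · simp only [Bool.false_eq_true, if_false]
      rw [r7aVal_ff, ← TrivSqZeroExt.inl_mul]
    · simp only [if_true]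
      rw [r7aVal_tt, ← TrivSqZeroExt.inl_mul]

theorem r7a_rel (R : List Rel)
    (hrel : ∀ r ∈ R, (r.map (fun t => if t.1 < b then
      sg t.2.1 • ((xp (mon k t.2.2) : L k) • g t.1) else 0)).sum = 0)
    (p : List (Bool × List ℕ)) (hp : p ∈ (rng (k, b, R)).2) :
    r7aT0 k b M g (po (b + 2 * k) p) = 0 := by
  have hpo : ∀ q : List (Bool × List ℕ), r7aT0 k b M g (po (b + 2 * k) q) =
      (q.map (fun t => sg t.1 • (t.2.map (r7aVal k b M g)).prod)).sum := by
    intro q
    unfold po
    rw [map_list_sum, List.map_map]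
    congr 1
    refine List.map_congr_left fun t _ => ?_
    simp only [Function.comp_apply, map_zsmul, r7aT0_mo]
  rw [hpo]
  unfold rng at hp
  simp only [List.mem_append, List.mem_map, List.mem_flatMap, List.mem_range] at hp
  rcases hp with (⟨j, hj, rfl⟩ | ⟨i, hi, j, hj, rfl⟩) | ⟨r, hr, rfl⟩
  · simp only [List.map_cons, List.map_nil, List.prod_cons, List.prod_nil, List.sum_cons,
      List.sum_nil, r7aVal_tt, r7aVal_ff, mul_one, add_zero]
    rw [← TrivSqZeroExt.inl_mul, ← xp_add]
    have : mon k [(j, true)] + mon k [(j, false)] = 0 := by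
      funext i
      by_cases h : j = (i : ℕ) <;> simp [mon, h]
    rw [this, xp_zero]
    simp [sg]
  · simp only [List.map_cons, List.map_nil, List.prod_cons, List.prod_nil, List.sum_cons,
      List.sum_nil, mul_one, add_zero]
    rw [r7aVal_lt k b M g hi, r7aVal_lt k b M g hj, TrivSqZeroExt.inr_mul_inr, smul_zero]
  · have h1 : ∀ r : Rel, ((r.flatMap (fun t => if t.1 < b then
        [(t.2.1, t.1 :: t.2.2.map (fun p => if p.2 then b + 2 * p.1 else b + 2 * p.1 + 1))]
        else [])).map (fun t => sg t.1 • (t.2.map (r7aVal k b M g)).prod)).sum =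
        TrivSqZeroExt.inr ((r.map (fun t => if t.1 < b then
      sg t.2.1 • ((xp (mon k t.2.2) : L k) • g t.1) else 0)).sum) := by
      intro r
      induction r with
      | nil => simp
      | cons t r ih =>
        rw [List.flatMap_cons, List.map_append, List.sum_append, ih, List.map_cons, List.sum_cons,
          TrivSqZeroExt.inr_add]
        congr 1
        by_cases h : t.1 < b
        · simp only [h, if_true, List.map_cons, List.map_nil, List.sum_cons, List.sum_nil, add_zero,
            List.prod_cons]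
          rw [r7a_letters, r7aVal_lt k b M g h, TrivSqZeroExt.inr_mul_inl]
          rw [op_smul_eq_smul]
          simp
        · simp [h]
    refine (h1 r).trans ?_
    rw [hrel r hr]
    exact TrivSqZeroExt.inr_zero _

end theta

/-! ### words, the map `κ` -/

theorem r7a_word_surj {k : ℕ} (v : Fin k → ℤ) : ∃ w : Word, mon k w = v := by
  classical
  let H : AddSubgroup (Fin k → ℤ) :=
    { carrier := {v | ∃ w : Word, mon k w = v}
      zero_mem' := ⟨[], mon_nil k⟩
      add_mem' := by
        rintro _ _ ⟨w, rfl⟩ ⟨w', rfl⟩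
        exact ⟨w ++ w', mon_append k w w'⟩
      neg_mem' := by
        rintro _ ⟨w, rfl⟩
        refine ⟨w.map (fun p => (p.1, !p.2)), ?_⟩
        induction w with
        | nil => simp [mon_nil]
        | cons p w ih =>
          rw [List.map_cons, mon_cons, ih, mon_cons k p w, neg_add]
          congr 1
          funext i
          obtain ⟨j, e⟩ := p
          by_cases h : j = (i : ℕ) <;> cases e <;> simp [mon, h] }
  have hs : ∀ j : Fin k, Pi.single j (1 : ℤ) ∈ H := by
    intro j
    refine ⟨[((j : ℕ), true)], ?_⟩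
    funext i
    by_cases h : j = i
    · subst h; simp [mon]
    · have h' : (j : ℕ) ≠ (i : ℕ) := fun e => h (Fin.ext e)
      simp [mon, h', Pi.single_apply, Ne.symm h]
  have hv : v = ∑ j : Fin k, v j • Pi.single j (1 : ℤ) := by
    funext i
    simp [Finset.sum_apply, Pi.single_apply]
  have : v ∈ H := by
    rw [hv]
    exact H.sum_mem fun j _ => H.zsmul_mem (hs j) _
  exact this

section kappa

variable (k : ℕ) {S : Type} [CommRing S] (U : ℕ → Sˣ)

/-- the character of `ℤ^k` given by units -/
noncomputable def r7aUh : Multiplicative (Fin k → ℤ) →* Sˣ where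
  toFun v := ∏ j : Fin k, U j ^ (Multiplicative.toAdd v j)
  map_one' := by simp
  map_mul' v w := by
    simp [zpow_add, Finset.prod_mul_distrib]

/-- the ring homomorphism from the Laurent polynomials given by units -/
noncomputable def r7aKap : L k →+* S :=
  (AddMonoidAlgebra.lift ℤ S (Fin k → ℤ) ((Units.coeHom S).comp (r7aUh k U))).toRingHom

theorem r7aKap_xp (v : Fin k → ℤ) : r7aKap k U (xp v) = (r7aUh k U (Multiplicative.ofAdd v) : S) := by
  unfold r7aKap xp
  simp

theorem r7aUh_letter (hU : ∀ j, k ≤ j → U j = 1) (j : ℕ) (e : Bool) :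
    r7aUh k U (Multiplicative.ofAdd (mon k [(j, e)])) = if e then U j else (U j)⁻¹ := by
  classical
  by_cases h : j < k
  · have h1 : ∀ i : Fin k, (Multiplicative.toAdd (Multiplicative.ofAdd (mon k [(j, e)])) i) =
        if i = (⟨j, h⟩ : Fin k) then (if e then 1 else -1) else 0 := by
      intro i
      rw [toAdd_ofAdd]
      by_cases hi : i = (⟨j, h⟩ : Fin k)
      · subst hi; simp [mon]
      · have : j ≠ (i : ℕ) := fun e => hi (Fin.ext e.symm)
        simp [mon, this, hi]
    change ∏ i : Fin k, U i ^ (Multiplicative.toAdd (Multiplicative.ofAdd (mon k [(j, e)])) i) = _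
    simp_rw [h1]
    rw [Finset.prod_eq_single (⟨j, h⟩ : Fin k)]
    · cases e <;> simp
    · intro i _ hi
      simp [hi]
    · intro hi
      exact absurd (Finset.mem_univ _) hi
  · rw [r7a_mon_ge k e (not_lt.1 h), ofAdd_zero, map_one, hU j (not_lt.1 h)]
    cases e <;> simp

theorem r7aKap_word (hU : ∀ j, k ≤ j → U j = 1) (w : Word) :
    r7aKap k U (xp (mon k w)) =
      (w.map (fun p => if p.2 then (U p.1 : S) else ((U p.1)⁻¹ : Sˣ))).prod := by
  induction w with
  | nil => rw [mon_nil, xp_zero, map_one]; rfl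
  | cons p w ih =>
    rw [List.map_cons, List.prod_cons, ← ih, mon_cons, xp_add, map_mul]
    congr 1
    obtain ⟨j, e⟩ := p
    rw [r7aKap_xp, r7aUh_letter k U hU]
    cases e <;> rfl

end kappa

/-! ### the presented ring -/

section ring

variable (k b : ℕ) (R : List Rel)

/-- the classes of the variables -/
noncomputable def r7aS (i : ℕ) : PR (rng (k, b, R)) :=
  if h : i < b + 2 * k then
    Ideal.Quotient.mk _ (MvPolynomial.X (⟨i, h⟩ : Fin (rng (k, b, R)).1)) else 1

theorem r7aS_mo (l : List ℕ) :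
    (Ideal.Quotient.mk (Ideal.span {f : MvPolynomial (Fin (rng (k, b, R)).1) ℤ |
      ∃ p ∈ (rng (k, b, R)).2, f = po (rng (k, b, R)).1 p})
      (mo (rng (k, b, R)).1 l) : PR (rng (k, b, R))) = (l.map (r7aS k b R)).prod := by
  unfold mo
  rw [map_list_prod, List.map_map]
  congr 1
  refine List.map_congr_left fun i _ => ?_
  by_cases h : i < b + 2 * k
  · simp only [Function.comp_apply, r7aS, h, dite_true]
    have h' : i < (rng (k, b, R)).1 := h
    simp only [h', dite_true]
  · simp only [Function.comp_apply, r7aS, h, dite_false]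
    have h' : ¬ i < (rng (k, b, R)).1 := h
    simp only [h', dite_false, map_one]

theorem r7aS_rel (p : List (Bool × List ℕ)) (hp : p ∈ (rng (k, b, R)).2) :
    (p.map (fun t => sg t.1 • (t.2.map (r7aS k b R)).prod)).sum = 0 := by
  have h0 : (Ideal.Quotient.mk (Ideal.span {f : MvPolynomial (Fin (rng (k, b, R)).1) ℤ |
      ∃ p ∈ (rng (k, b, R)).2, f = po (rng (k, b, R)).1 p})
      (po (rng (k, b, R)).1 p) : PR (rng (k, b, R))) = 0 :=
    Ideal.Quotient.eq_zero_iff_mem.2 (Ideal.subset_span ⟨p, hp, rfl⟩)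
  have h1 : po (rng (k, b, R)).1 p =
    (p.map (fun t => sg t.1 • mo (rng (k, b, R)).1 t.2)).sum := rfl
  refine Eq.trans ?_ h0
  rw [h1, map_list_sum, List.map_map]
  congr 1
  refine List.map_congr_left fun t _ => ?_
  simp only [Function.comp_apply, map_zsmul]
  rw [r7aS_mo]

theorem r7aS_inv (j : ℕ) : r7aS k b R (b + 2 * j) * r7aS k b R (b + 2 * j + 1) = 1 := by
  by_cases h : j < k
  · have := r7aS_rel k b R [(true, [b + 2 * j, b + 2 * j + 1]), (false, [])] (by
      unfold rng
      simp only [List.mem_append, List.mem_map, List.mem_range]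
      exact Or.inl (Or.inl ⟨j, h, rfl⟩))
    simp only [List.map_cons, List.map_nil, List.prod_cons, List.prod_nil, List.sum_cons,
      List.sum_nil, mul_one, add_zero, sg, if_true, Bool.false_eq_true, if_false, one_smul,
      neg_smul] at this
    exact eq_of_sub_eq_zero (by rw [sub_eq_add_neg]; exact this)
  · have h1 : ¬ b + 2 * j < b + 2 * k := by omega
    have h2 : ¬ b + 2 * j + 1 < b + 2 * k := by omega
    simp [r7aS, h1, h2]

theorem r7aS_sq (i j : ℕ) (hi : i < b) (hj : j < b) : r7aS k b R i * r7aS k b R j = 0 := by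
  have := r7aS_rel k b R [(true, [i, j])] (by
    unfold rng
    simp only [List.mem_append, List.mem_map, List.mem_range, List.mem_flatMap]
    exact Or.inl (Or.inr ⟨i, hi, j, hj, rfl⟩))
  simpa [sg] using this

/-- the units of the variables -/
noncomputable def r7aU (j : ℕ) : (PR (rng (k, b, R)))ˣ where
  val := r7aS k b R (b + 2 * j)
  inv := r7aS k b R (b + 2 * j + 1)
  val_inv := r7aS_inv k b R j
  inv_val := by rw [mul_comm]; exact r7aS_inv k b R j

theorem r7aU_ge (j : ℕ) (h : k ≤ j) : r7aU k b R j = 1 := by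
  apply Units.ext
  have h1 : ¬ b + 2 * j < b + 2 * k := by omega
  simp [r7aU, r7aS, h1]

theorem r7aS_mod (r : Rel) (hr : r ∈ R) :
    (r.map (fun t => if t.1 < b then sg t.2.1 •
      (r7aKap k (r7aU k b R) (xp (mon k t.2.2)) * r7aS k b R t.1) else 0)).sum = 0 := by
  have h0 := r7aS_rel k b R (r.flatMap (fun t => if t.1 < b then
        [(t.2.1, t.1 :: t.2.2.map (fun p => if p.2 then b + 2 * p.1 else b + 2 * p.1 + 1))]
        else [])) (by
    unfold rng
    simp only [List.mem_append, List.mem_map]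
    exact Or.inr ⟨r, hr, rfl⟩)
  refine Eq.trans ?_ h0
  clear h0 hr
  induction r with
  | nil => simp
  | cons t r ih =>
    rw [List.flatMap_cons, List.map_append, List.sum_append, ← ih, List.map_cons, List.sum_cons]
    congr 1
    by_cases h : t.1 < b
    · simp only [h, if_true, List.map_cons, List.map_nil, List.sum_cons, List.sum_nil, add_zero,
        List.prod_cons]
      rw [mul_comm, r7aKap_word k _ (r7aU_ge k b R), List.map_map]
      congr 3
      refine List.map_congr_left fun p _ => ?_
      obtain ⟨j, e⟩ := p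
      cases e <;> rfl
    · simp [h]

theorem r7a_theta (M : Type) [AddCommGroup M] [Module (L k) M] (g : ℕ → M)
    (hrel : ∀ r ∈ R, (r.map (fun t => if t.1 < b then
      sg t.2.1 • ((xp (mon k t.2.2) : L k) • g t.1) else 0)).sum = 0) :
    ∃ (π : PR (rng (k, b, R)) →+* L k) (s : PR (rng (k, b, R)) →+ M),
      (∀ x y, s (x * y) = π x • s y + π y • s x) ∧
      (∀ i, i < b → π (r7aS k b R i) = 0 ∧ s (r7aS k b R i) = g i) ∧
      (∀ j, π (r7aS k b R (b + 2 * j)) = xp (mon k [(j, true)]) ∧
        s (r7aS k b R (b + 2 * j)) = 0) ∧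
      (∀ j, π (r7aS k b R (b + 2 * j + 1)) = xp (mon k [(j, false)]) ∧
        s (r7aS k b R (b + 2 * j + 1)) = 0) := by
  letI : Module (L k)ᵐᵒᵖ M := Module.compHom M ((RingHom.id (L k)).fromOpposite mul_comm)
  haveI : IsCentralScalar (L k) M := ⟨fun _ _ => rfl⟩
  let θ : PR (rng (k, b, R)) →+* TrivSqZeroExt (L k) M :=
    Ideal.Quotient.lift _ (r7aT0 k b M g) (by
      intro a ha
      have : Ideal.span {f : MvPolynomial (Fin (rng (k, b, R)).1) ℤ |
          ∃ p ∈ (rng (k, b, R)).2, f = po (rng (k, b, R)).1 p} ≤ RingHom.ker (r7aT0 k b M g) := by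
        rw [Ideal.span_le]
        rintro _ ⟨p, hp, rfl⟩
        exact r7a_rel k b M g R hrel p hp
      exact this ha)
  have hθ : ∀ i, θ (r7aS k b R i) = r7aVal k b M g i := by
    intro i
    by_cases h : i < b + 2 * k
    · have h1 : r7aS k b R i = Ideal.Quotient.mk _
          (MvPolynomial.X (⟨i, h⟩ : Fin (rng (k, b, R)).1)) := by
        simp [r7aS, h]
      rw [h1]
      change r7aT0 k b M g (MvPolynomial.X _) = _
      simp [r7aT0]
    · have h1 : r7aS k b R i = 1 := by simp [r7aS, h]
      rw [h1, map_one, r7aVal_ge k b M g (not_lt.1 h)]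
  refine ⟨(TrivSqZeroExt.fstHom ℤ (L k) M).toRingHom.comp θ,
    { toFun := fun x => (θ x).snd, map_zero' := by simp, map_add' := fun x y => by simp },
    ?_, ?_, ?_, ?_⟩
  · intro x y
    change (θ (x * y)).snd = (θ x).fst • (θ y).snd + (θ y).fst • (θ x).snd
    rw [map_mul, TrivSqZeroExt.snd_mul]
    congr 1
  · intro i hi
    constructor
    · change (θ _).fst = _
      rw [hθ, r7aVal_lt k b M g hi, TrivSqZeroExt.fst_inr]
    · change (θ _).snd = _
      rw [hθ, r7aVal_lt k b M g hi, TrivSqZeroExt.snd_inr]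
  · intro j
    constructor
    · change (θ _).fst = _
      rw [hθ, r7aVal_tt, TrivSqZeroExt.fst_inl]
    · change (θ _).snd = _
      rw [hθ, r7aVal_tt, TrivSqZeroExt.snd_inl]
  · intro j
    constructor
    · change (θ _).fst = _
      rw [hθ, r7aVal_ff, TrivSqZeroExt.fst_inl]
    · change (θ _).snd = _
      rw [hθ, r7aVal_ff, TrivSqZeroExt.snd_inl]

/-- the embedding of the module -/
theorem r7a_j : ∃ f : PM k b R →+ PR (rng (k, b, R)),
    (∀ i, i < b → f (gen i) = r7aS k b R i) ∧
    ∀ (v : Fin k → ℤ) m, f ((xp v : L k) • m) = r7aKap k (r7aU k b R) (xp v) * f m := by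
  refine up (R := R) (fun v => AddMonoidHom.mulLeft (r7aKap k (r7aU k b R) (xp v))) ?_ ?_
    (r7aS k b R) ?_
  · intro x
    simp [xp_zero]
  · intro v w x
    simp [xp_add, mul_assoc]
  · intro r hr
    exact r7aS_mod k b R r hr

end ring

theorem r7a_hom_ext {k : ℕ} {B : Type*} [AddCommGroup B] (f g : L k →+ B)
    (h : ∀ v, f (xp v) = g (xp v)) (a : L k) : f a = g a := by
  refine L_induction (motive := fun a => f a = g a) a (by simp) ?_ ?_ h
  · intro a b ha hb; rw [map_add, map_add, ha, hb]
  · intro a ha; rw [map_neg, map_neg, ha]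

/-- R7a -/
theorem r7a (c : MCode) : Nonempty (RingData c.1 (PM c.1 c.2.1 c.2.2) (PR (rng c))) := by
  obtain ⟨k, b, R⟩ := c
  change Nonempty (RingData k (PM k b R) (PR (rng (k, b, R))))
  obtain ⟨π, s, hsm, hE, hX, hY⟩ := r7a_theta k b R (PM k b R) gen (by
    intro r hr
    refine Eq.trans ?_ (pm_rel r hr)
    congr 1
    refine List.map_congr_left fun t _ => ?_
    by_cases h : t.1 < b
    · rw [if_pos h]
    · rw [if_neg h, gen_of_le (not_lt.1 h)]; simp)
  obtain ⟨f, hf1, hf2⟩ := r7a_j k b R
  set κ := r7aKap k (r7aU k b R) with hκ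
  have hs1 : s 1 = 0 := by
    have := hsm 1 1
    rw [mul_one, π.map_one, one_smul] at this
    exact (left_eq_add.1 this)
  -- letters
  have hlet : ∀ p : ℕ × Bool,
      π (if p.2 then (r7aU k b R p.1 : PR (rng (k, b, R))) else ((r7aU k b R p.1)⁻¹ : (PR _)ˣ)) =
        xp (mon k [p]) ∧
      s (if p.2 then (r7aU k b R p.1 : PR (rng (k, b, R))) else ((r7aU k b R p.1)⁻¹ : (PR _)ˣ)) =
        0 := by
    rintro ⟨j, e⟩
    cases e
    · exact hY j
    · exact hX j
  have hword : ∀ w : Word, π (κ (xp (mon k w))) = xp (mon k w) ∧ s (κ (xp (mon k w))) = 0 := by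
    intro w
    rw [hκ, r7aKap_word k _ (r7aU_ge k b R)]
    induction w with
    | nil => simp [mon_nil, xp_zero, hs1]
    | cons p w ih =>
      rw [List.map_cons, List.prod_cons, map_mul, hsm, ih.1, ih.2, (hlet p).1, (hlet p).2,
        mon_cons k p w, xp_add]
      simp
  have hκv : ∀ v : Fin k → ℤ, π (κ (xp v)) = xp v ∧ s (κ (xp v)) = 0 := by
    intro v
    obtain ⟨w, rfl⟩ := r7a_word_surj v
    exact hword w
  have hπκ : ∀ a, π (κ a) = a := fun a =>
    r7a_hom_ext ((π.comp κ).toAddMonoidHom) (AddMonoidHom.id _) (fun v => (hκv v).1) a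
  have hsκ : ∀ a, s (κ a) = 0 := fun a =>
    r7a_hom_ext (s.comp κ.toAddMonoidHom) 0 (fun v => (hκv v).2) a
  have hπj : ∀ m, π (f m) = 0 := by
    intro m
    have : (π.toAddMonoidHom.comp f) = 0 := by
      apply pm_ext
      intro v i hi
      change π (f ((xp v : L k) • gen i)) = 0
      rw [hf2, map_mul, hf1 i hi, (hE i hi).1, mul_zero]
    exact DFunLike.congr_fun this m
  have hsj : ∀ m, s (f m) = m := by
    intro m
    have : (s.comp f) = AddMonoidHom.id _ := by
      apply pm_ext
      intro v i hi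
      change s (f ((xp v : L k) • gen i)) = (xp v : L k) • gen i
      rw [hf2, hsm, hf1 i hi, (hE i hi).2, (hE i hi).1, (hκv v).1, zero_smul, add_zero]
    exact DFunLike.congr_fun this m
  have hsmul : ∀ (a : L k) (m : PM k b R), κ a * f m = f (a • m) := by
    intro a m
    refine r7a_hom_ext ((AddMonoidHom.mulRight (f m)).comp κ.toAddMonoidHom)
      (f.comp ((smulAddHom (L k) (PM k b R)).flip m)) (fun v => ?_) a
    change κ (xp v) * f m = f ((xp v : L k) • m)
    rw [hf2]
  have hsq : ∀ m m', f m * f m' = 0 := by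
    intro m m'
    refine pm_induction (motive := fun m => f m * f m' = 0) m (by simp) ?_ ?_ ?_
    · intro x y hx hy; rw [map_add, add_mul, hx, hy, add_zero]
    · intro x hx
      have : f (-x) * f m' + f x * f m' = 0 := by
        rw [← add_mul, ← map_add, neg_add_cancel, map_zero, zero_mul]
      rwa [hx, add_zero] at this
    · intro v i hi
      refine pm_induction (motive := fun m' => f ((xp v : L k) • gen i) * f m' = 0) m'
        (by simp) ?_ ?_ ?_
      · intro x y hx hy; rw [map_add, mul_add, hx, hy, add_zero]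
      · intro x hx
        have : f ((xp v : L k) • gen i) * f (-x) + f ((xp v : L k) • gen i) * f x = 0 := by
          rw [← mul_add, ← map_add, neg_add_cancel, map_zero, mul_zero]
        rwa [hx, add_zero] at this
      · intro w j hj
        rw [hf2, hf2, hf1 i hi, hf1 j hj]
        have := r7aS_sq k b R i j hi hj
        linear_combination (κ (xp v) * κ (xp w)) * this
  refine ⟨⟨π, κ, f, hπκ, hπj, fun x y h => ?_, ?_, hsq, hsmul⟩⟩
  · rw [← hsj x, ← hsj y, h]
  · intro x hx
    have hdec : ∀ y : PR (rng (k, b, R)), ∃ (a : L k) (m : PM k b R), y = κ a + f m := by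
      intro y
      obtain ⟨q, rfl⟩ := Ideal.Quotient.mk_surjective y
      induction q using MvPolynomial.induction_on with
      | C n =>
        refine ⟨(n : L k), 0, ?_⟩
        rw [map_zero, add_zero, map_intCast]
        simp
      | add p q hp hq =>
        obtain ⟨a, m, h⟩ := hp
        obtain ⟨a', m', h'⟩ := hq
        exact ⟨a + a', m + m', by rw [map_add, h, h', map_add, map_add]; ring⟩
      | mul_X p i hp =>
        obtain ⟨a, m, h⟩ := hp
        have hi : (Ideal.Quotient.mk (Ideal.span {f : MvPolynomial (Fin (rng (k, b, R)).1) ℤ |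
            ∃ p ∈ (rng (k, b, R)).2, f = po (rng (k, b, R)).1 p}) (MvPolynomial.X i) :
            PR (rng (k, b, R))) = r7aS k b R i := by
          have hlt : (i : ℕ) < b + 2 * k := i.2
          simp [r7aS, hlt]
        rw [map_mul, h, hi]
        by_cases hb : (i : ℕ) < b
        · refine ⟨0, a • gen (i : ℕ), ?_⟩
          rw [map_zero, zero_add, ← hsmul, add_mul, ← hf1 _ hb, hsq, add_zero]
        · obtain ⟨j, hj | hj⟩ : ∃ j, (i : ℕ) = b + 2 * j ∨ (i : ℕ) = b + 2 * j + 1 := by
            refine ⟨((i : ℕ) - b) / 2, ?_⟩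
            omega
          · have h1 : r7aS k b R i = κ (xp (mon k [(j, true)])) := by
              rw [hj, hκ, r7aKap_word k _ (r7aU_ge k b R)]
              simp [r7aU]
            refine ⟨a * xp (mon k [(j, true)]), (xp (mon k [(j, true)]) : L k) • m, ?_⟩
            rw [h1, map_mul, ← hsmul]; ring
          · have h1 : r7aS k b R i = κ (xp (mon k [(j, false)])) := by
              rw [hj, hκ, r7aKap_word k _ (r7aU_ge k b R)]
              simp [r7aU]
            refine ⟨a * xp (mon k [(j, false)]), (xp (mon k [(j, false)]) : L k) • m, ?_⟩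
            rw [h1, map_mul, ← hsmul]; ring
    obtain ⟨a, m, h⟩ := hdec x
    refine ⟨m, ?_⟩
    rw [h, map_add, hπκ, hπj, add_zero] at hx
    rw [h, hx, map_zero, zero_add]

end Pool.Agent.MET
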