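import Pool.Agent.Lib_helper53.MET.Base

set_option autoImplicit false

namespace Pool.Agent.MET

theorem r7u_one_coeff {k : ℕ} (v : Fin k → ℤ) (h : (1 : L k).coeff v ≠ 0) : v = 0 := by
  by_contra hv
  apply h
  rw [AddMonoidAlgebra.one_def, AddMonoidAlgebra.coeff_single]
  exact Finsupp.single_eq_of_ne hv

/-- R7u: units of the Laurent polynomial ring -/
theorem unit_lk {k : ℕ} (u : (L k)ˣ) :
    ∃ (v : Fin k → ℤ) (e : ℤ), (e = 1 ∨ e = -1) ∧ (u : L k) = e • xp v := by
  classical
  set a : L k := (u : L k) with ha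
  set b : L k := ((u⁻¹ : (L k)ˣ) : L k) with hb
  have hab : a * b = 1 := u.mul_inv
  have hne : (1 : L k) ≠ 0 := one_ne_zero
  have ha0 : a.coeff ≠ 0 := by
    intro h
    apply hne
    rw [← hab, AddMonoidAlgebra.coeff_eq_zero.1 h, zero_mul]
  have hb0 : b.coeff ≠ 0 := by
    intro h
    apply hne
    rw [← hab, AddMonoidAlgebra.coeff_eq_zero.1 h, mul_zero]
  have hA : 0 < a.coeff.support.card := Finset.card_pos.2 (Finsupp.support_nonempty_iff.2 ha0)
  have hB : 0 < b.coeff.support.card := Finset.card_pos.2 (Finsupp.support_nonempty_iff.2 hb0)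
  have key : ∀ p : (Fin k → ℤ) × (Fin k → ℤ), p ∈ a.coeff.support ×ˢ b.coeff.support →
      UniqueAdd a.coeff.support b.coeff.support p.1 p.2 → p.1 + p.2 = 0 := by
    intro p hp hu
    have h1 := AddMonoidAlgebra.coeff_mul_add_of_uniqueAdd hu
    rw [hab] at h1
    rw [Finset.mem_product, Finsupp.mem_support_iff, Finsupp.mem_support_iff] at hp
    exact r7u_one_coeff _ (h1 ▸ mul_ne_zero hp.1 hp.2)
  have hcard : a.coeff.support.card * b.coeff.support.card ≤ 1 := by
    by_contra h
    obtain ⟨p1, h1, p2, h2, hne', u1, u2⟩ :=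
      TwoUniqueSums.uniqueAdd_of_one_lt_card (not_le.1 h)
    have e1 := key p1 h1 u1
    have e2 := key p2 h2 u2
    apply hne'
    rw [Finset.mem_product] at h1
    obtain ⟨x, y⟩ := u2 h1.1 h1.2 (e1.trans e2.symm)
    exact Prod.ext x y
  have hA1 : a.coeff.support.card = 1 := by nlinarith
  have hB1 : b.coeff.support.card = 1 := by nlinarith
  obtain ⟨v, c, hc, hav⟩ := Finsupp.card_support_eq_one'.1 hA1
  obtain ⟨w, d, hd, hbw⟩ := Finsupp.card_support_eq_one'.1 hB1
  have ea : a = AddMonoidAlgebra.single v c := by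
    apply AddMonoidAlgebra.coeff_injective
    rw [hav, AddMonoidAlgebra.coeff_single]
  have eb : b = AddMonoidAlgebra.single w d := by
    apply AddMonoidAlgebra.coeff_injective
    rw [hbw, AddMonoidAlgebra.coeff_single]
  have hmul := hab
  rw [ea, eb, AddMonoidAlgebra.single_mul_single] at hmul
  have hvw : v + w = 0 := by
    apply r7u_one_coeff
    rw [← hmul, AddMonoidAlgebra.coeff_single, Finsupp.single_eq_same]
    exact mul_ne_zero hc hd
  have hcd : c * d = 1 := by
    have := congrArg (fun z : L k => z.coeff (v + w)) hmul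
    simp only [AddMonoidAlgebra.coeff_single, Finsupp.single_eq_same] at this
    rw [this, hvw, AddMonoidAlgebra.one_def, AddMonoidAlgebra.coeff_single, Finsupp.single_eq_same]
  refine ⟨v, c, Int.isUnit_iff.1 (IsUnit.of_mul_eq_one _ hcd), ?_⟩
  rw [ea]
  simp [xp]

end Pool.Agent.MET
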